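import Mathlib
import Pool.Agent.W425.GN.GenF

/-!
# The motivic monodromy conjecture, strong form, for generic coefficients

Let `f = ∑_j c_j x ^ (v j) + h` be a polynomial in `n` variables over a field `k ⊂ ℂ`, where `h` is an
ARBITRARY polynomial over a subfield `F ⊂ k`, whose exponents are in the Newton polyhedron
`conv {v j} + ℝ_{≥ 0} ^ n`, and the coefficients `c_j ∈ k` are generic: `g(c) ≠ 0` for a certain nonzero
polynomial `g` with coefficients in `F`. So only the coefficients at the vertices of the Newton
polyhedron (and as many others as one wants) have to be generic; `k = F` is allowed. The number of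
variables and the singularities are arbitrary (they need not be isolated).

If no candidate pole `- |a| / N_a ≠ -1` comes only from `B1`-facets of the Newton polyhedron, then the
motivic monodromy conjecture holds for `f` in its strong (Bernstein-Sato) form: at every point `x` of
`{f = 0}`, with coordinates in an arbitrary extension field `K` of `k`, the local motivic zeta function
`Z_{f,x}(T)` lies in the ring generated by `T` and finitely many `1 / (1 - 𝕃 ^ a T ^ b)` with `a < 0 < b`
such that `a / b` is a root of the Bernstein-Sato polynomial `b_f`.

Method. If the `c_j` are algebraically independent over `F`, then all the candidate poles are roots of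
`b_f`: the functional equation of `b_f` gives an algebraic relation, and functionals (one for every
facet) are applied to it. Now `s - α` divides `b_f` if and only if there is no identity
`f ^ s = P(s) f ^ (s + 1) + (s - α) Q(s) f ^ s`. Gröbner bases in the Weyl algebra over
`F(c_1, …, c_r)`, spread out over `F[c_1, …, c_r, 1 / g]`, show that such an identity for one member of
the family with `g(c) ≠ 0` gives one for the generic member.
-/

set_option autoImplicit false

namespace Pool.Agent.Results.MP_b91a16_ag.GenericCoefficients

open MvPolynomial Pool.Agent.W428.MOT Pool.Agent.W375.MG Pool.Agent.W425.MM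
  Pool.Agent.W425.ND

/-- **The motivic monodromy conjecture (Bernstein-Sato form) for the polynomials
`f = ∑_j c_j x ^ (v j) + h` with generic coefficients `c_j` and without candidate poles which come only
from `B1`-facets, at all points.**

`spa v c` is the polynomial `∑_j c_j x ^ (v j)`. `NP v w` says that `w` is in the Newton polyhedron
`conv {v j} + ℝ_{≥ 0} ^ n`.

`NoB1s v False` says that for every ray `a` of the normal fan of the Newton polyhedron (`IsRay v a`)
with `N_a := gord v a = min_j ⟨a, v j⟩ > 0` either `|a| = N_a`, or `|a| / N_a = |a'| / N_{a'}`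
for some `a' ∈ ℕ ^ n` with `N_{a'} > 0` and `NonB v False a'`: there is a set `J` of `#{i | a' i ≠ 0}`
elements with `⟨a', v j⟩ = N_{a'}` for `j ∈ J` such that the vectors `(v j i)_{a' i ≠ 0}`, `j ∈ J`, are
linearly independent and such that no variable `x_i` with `a' i ≠ 0` occurs in exactly one of the
monomials `x ^ (v j)`, `j ∈ J`, and there with exponent `1`.

`IsBFunction f b` says that `b(s) f ^ s = P(s) f ^ (s + 1)` for a differential operator `P(s)` in the
Weyl algebra, polynomial in `s`; the Bernstein-Sato polynomial `b_f` is one of these polynomials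
`b`. -/
theorem result (F : Type) [Field F] [Algebra F ℂ] {n r : ℕ} (hr : 1 ≤ r) (v : Fin r → Fin n → ℕ)
    (hv : Function.Injective v) (hv0 : ∀ j, v j ≠ 0)
    (h : MvPolynomial (Fin n) F) (hh : ∀ w ∈ h.support, Pool.Agent.W425.SV.NP v w)
    (hB : NoB1s v False) :
    ∃ g : MvPolynomial (Fin r) F, g ≠ 0 ∧
      ∀ (k : Type) [Field k] [Algebra F k] [Algebra k ℂ] [IsScalarTower F k ℂ] (c : Fin r → k),
      aeval c g ≠ 0 →
      ∃ S : Finset (ℤ × ℤ),
        (∀ p ∈ S, p.1 < 0 ∧ 0 < p.2 ∧ ∀ b : Polynomial ℂ,
          Pool.Agent.H628R4.TP.IsBFunction
            (spa v (fun j => algebraMap k ℂ (c j)) + MvPolynomial.map (algebraMap F ℂ) h) b →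
            b.eval ((p.1 : ℂ) / p.2) = 0) ∧
        ∀ (K : Type) [Field K] [Algebra k K] (x : Fin n → K),
          eval x (MvPolynomial.map (algebraMap k K)
            (spa v c + MvPolynomial.map (algebraMap F k) h)) = 0 →
          zeta (MvPolynomial.map (algebraMap k K)
            (spa v c + MvPolynomial.map (algebraMap F k) h)) x ∈ ratRing K S := by
  obtain ⟨g, hg, hgz⟩ := Pool.Agent.W425.GN.gen_motF (F := F) (show 0 < r by omega) v hv hv0 h hh hB
  refine ⟨g, hg, fun k _ _ _ _ c hc => ?_⟩
  obtain ⟨S, hS, hz, -⟩ := hgz k c (fun h0 => hc (by
    have h1 : algebraMap k ℂ (aeval c g) = 0 := by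
      rw [← h0, ← aeval_algebraMap_apply]
      rfl
    exact (map_eq_zero _).1 h1))
  refine ⟨S, hS, fun K _ _ x _ => ?_⟩
  have e1 : MvPolynomial.map (algebraMap k K) (spa v c + MvPolynomial.map (algebraMap F k) h) =
      spa v (fun j => algebraMap k K (c j)) +
        MvPolynomial.map ((algebraMap k K).comp (algebraMap F k)) h := by
    rw [map_add, MvPolynomial.map_map]
    congr 1
    unfold spa
    simp
  rw [e1]
  exact zeta_mem _ x S (fun W E hW hE => hz K W E hW hE)

end Pool.Agent.Results.MP_b91a16_ag.GenericCoefficients
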