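import Pool.Agent.W574.MO.Cone

set_option autoImplicit false

/-! # The motivic monodromy conjecture at the points `(P, 0)` of `∑ y_j f_j(x₁, x₂) = 0`

Here the `f_j` are arbitrary polynomials in the two variables `x₁, x₂`, the `y_j` are further
variables, `F = univ f = ∑ y_j f_j(x₁, x₂)`, and `P` is a point of the plane. The local motivic
zeta function of `F` at `(P, 0)` (jets `φ` with `F(φ) = t^m + ...`) is computed by blowing up
points of the plane; see `JetFormMot` (in `Pool.Agent.W574.MO.FormDefs`) and `MotLocal` (in
`Pool.Agent.W574.MO.Defs`).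

The proof:

* `functionalEq_of_univ`: a functional equation of `F` gives a functional equation of the ideal
  `(f_j)` with the same `b` (one direction of a theorem of Mustata, 2019);
* `local_mainM`: if `b(s₀) ≠ 0`, then the contribution of a point of the plane lies in the ring of
  the series whose denominators do not vanish at `s₀`;
* `descent`: over the unique factorization domain `ℤ[L, L⁻¹]`, all denominators which do not
  belong to roots of `b` can be removed at the same time;
* `minus_one`: `b(-1) = 0`. -/

namespace Pool.Agent.Results.MP_b91a16_ag.PlaneFormsPoints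

open MvPolynomial Pool.Agent.W574.MO Pool.Agent.W574.HS Pool.Agent.H628R4.TP

/-- Let `f_j` be polynomials in two variables, not all zero, let `b` be a polynomial which
satisfies a functional equation `b(s) F ^ s = P(s) F ^ (s + 1)` (in particular the Bernstein-Sato
polynomial of `F = ∑ y_j f_j`), and let `Z ∈ M⟦T⟧` be the local motivic zeta function of `F` at the
point `(P, 0)`. Then `Z` lies in the ring `M[T][(1 - L⁻ⁿ Tᵃ)⁻¹]`, where the pairs `a, n ≥ 1` are
such that `-n/a` is a root of `b`. -/
theorem result {M : Type} [CommRing M] (L : Mˣ) {ι : Type} [Fintype ι]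
    (f : ι → MvPolynomial (Fin 2) ℂ) (hf : ∃ j, f j ≠ 0) (b : Polynomial ℂ)
    (hb : IsBFunction (univ f) b) (P : Fin 2 → ℂ) (Z : PowerSeries M)
    (hZ : JetFormMot L f P Z) : Z ∈ DenRing L (RootPair b) := by
  classical
  obtain ⟨Z', hZ', rfl⟩ := hZ
  exact form_mot_at L f hf b hb P Z' hZ' _

end Pool.Agent.Results.MP_b91a16_ag.PlaneFormsPoints
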