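import Pool.Agent.W428.MOT.Final

/-!
# The motivic monodromy conjecture for sparse polynomials

Let `f = x ^ A (∑_j c_j x ^ (m_j)) ^ e` with `r ≥ 2` terms, `c_j ≠ 0`, affinely independent
exponents `m_j`, `e ≥ 1`, such that for every variable `x_i` either `x_i ∣ x ^ A` or no `m_j`
has `x_i`-exponent `1`. For every point `x` (with values in any extension field `K` of the base
field `k`, in particular for the points of the scheme `𝔸 ^ n_k` with `K` the residue field) with
`f(x) = 0`, the local motivic zeta function of Denef and Loeser lies in the ring generated by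
`T` and finitely many `1 / (1 - 𝕃 ^ a T ^ b)` with `a < 0 < b` and `a / b` a root of the
Bernstein-Sato polynomial of `f`.
-/

set_option autoImplicit false

namespace Pool.Agent.Results.MP_b91a16_ag.SparseMotivic

open MvPolynomial Pool.Agent.W428.MOT

/-- **The motivic monodromy conjecture (Bernstein-Sato form) for the polynomials
`f = x ^ A (∑_j c_j x ^ (m_j)) ^ e` with affinely independent exponents `m_j` and no exponent `1`
in the variables which do not divide `x ^ A`, at all points.**

`IsBFunction f b` says that `b(s) f ^ s = P(s) f ^ (s + 1)` for a differential operator `P(s)`;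
the Bernstein-Sato polynomial `b_f` is one of these polynomials `b`. -/
theorem result (k K : Type) [Field k] [Algebra k ℂ] [Field K] [Algebra k K] {n r : ℕ}
    (A : Fin n → ℕ) (m : Fin r → Fin n → ℕ) (c : Fin r → k) (e : ℕ)
    (hm : AffineIndependent ℚ (fun (j : Fin r) (i : Fin n) => (m j i : ℚ)))
    (hc : ∀ j, c j ≠ 0) (hr : 2 ≤ r) (he : 0 < e) (h1 : ∀ i, A i ≠ 0 ∨ ∀ j, m j i ≠ 1)
    (x : Fin n → K) (hx : aeval x (sp A m c e) = 0) :
    ∃ S : Finset (ℤ × ℤ),
      (∀ p ∈ S, p.1 < 0 ∧ 0 < p.2 ∧ ∀ b : Polynomial ℂ,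
        Pool.Agent.H628R4.TP.IsBFunction (sp A m (fun j => algebraMap k ℂ (c j)) e) b →
          b.eval ((p.1 : ℂ) / p.2) = 0) ∧
      zeta (sp A m (fun j => algebraMap k K (c j)) e) x ∈ ratRing K S :=
  sFIN k K A m c e hm hc hr he h1 x hx

end Pool.Agent.Results.MP_b91a16_ag.SparseMotivic
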